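import Pool.Agent.H840.MX.Stm

set_option autoImplicit false

/-! A quintic through the first eleven points but not through the last one. -/

namespace Pool.Agent.H284.MX

open MvPolynomial Pool.Agent.T2H40.MI Pool.Agent.H840.MX

theorem equivHom (d : ℕ) : Nonempty (homogeneousSubmodule (Fin 3) ℂ d ≃ₗ[ℂ]
    (((Finset.univ.finsuppAntidiag d : Finset (Fin 3 →₀ ℕ)) : Set (Fin 3 →₀ ℕ)) →₀ ℂ)) := by
  have h1 : {e : Fin 3 →₀ ℕ | e.degree = d} =
      ((Finset.univ.finsuppAntidiag d : Finset (Fin 3 →₀ ℕ)) : Set (Fin 3 →₀ ℕ)) := by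
    ext e
    simp [Finsupp.degree_eq_sum]
  rw [homogeneousSubmodule_eq_finsupp_supported, h1]
  exact ⟨AddMonoidAlgebra.supportedEquivFinsupp _⟩

instance fin_hom (d : ℕ) : Module.Finite ℂ (homogeneousSubmodule (Fin 3) ℂ d) := by
  obtain ⟨e⟩ := equivHom d
  exact Module.Finite.equiv e.symm

theorem finrank_hom (d : ℕ) :
    Module.finrank ℂ (homogeneousSubmodule (Fin 3) ℂ d) = (d + 2).choose 2 := by
  obtain ⟨e⟩ := equivHom d
  rw [e.finrank_eq, Module.finrank_finsupp_self ℂ]
  have h3 := Finset.card_finsuppAntidiag_nat_eq_choose (s := (Finset.univ : Finset (Fin 3))) d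
  simp only [Finset.coe_sort_coe, Fintype.card_coe]
  rw [h3]
  simp only [Finset.card_univ, Fintype.card_fin]
  rw [← Nat.choose_symm_of_eq_add (show d + 2 = d + 2 from rfl)]
  have h4 : 3 + d - 1 = d + 2 := by omega
  rw [h4]

/-- evaluation at the first eleven points -/
noncomputable def ev (Q : Fin 12 → Fin 3 → ℂ) :
    homogeneousSubmodule (Fin 3) ℂ 5 →ₗ[ℂ] (Fin 11 → ℂ) :=
  LinearMap.pi fun i => (aeval (Q i.castSucc)).toLinearMap ∘ₗ
    (homogeneousSubmodule (Fin 3) ℂ 5).subtype

theorem ev_apply (Q : Fin 12 → Fin 3 → ℂ) (h : homogeneousSubmodule (Fin 3) ℂ 5) (i : Fin 11) :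
    ev Q h i = eval (Q i.castSucc) (h : S) := by
  exact RingHom.congr_fun (coe_aeval_eq_eval (Q i.castSucc)) (h : S)

/-- the combinations of two polynomials -/
noncomputable def comb (F g : S) :
    (homogeneousSubmodule (Fin 3) ℂ 2 × homogeneousSubmodule (Fin 3) ℂ 1) →ₗ[ℂ] S :=
  LinearMap.coprod
    ((LinearMap.mulRight ℂ F) ∘ₗ (homogeneousSubmodule (Fin 3) ℂ 2).subtype)
    ((LinearMap.mulRight ℂ g) ∘ₗ (homogeneousSubmodule (Fin 3) ℂ 1).subtype)

theorem comb_apply (F g : S) (a : homogeneousSubmodule (Fin 3) ℂ 2)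
    (b : homogeneousSubmodule (Fin 3) ℂ 1) : comb F g (a, b) = (a : S) * F + (b : S) * g := by
  simp [comb]

theorem g5 (hN : S_NOE) : S_G5 := by
  intro F g Q hQ
  by_contra hcon
  push Not at hcon
  have hker : 10 ≤ Module.finrank ℂ (LinearMap.ker (ev Q)) := by
    have h1 := LinearMap.finrank_range_add_finrank_ker (ev Q)
    have h2 : Module.finrank ℂ (LinearMap.range (ev Q)) ≤ 11 := by
      have := Submodule.finrank_le (LinearMap.range (ev Q))
      rwa [Module.finrank_fin_fun] at this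
    rw [finrank_hom] at h1
    have h3 : (5 + 2).choose 2 = 21 := by decide
    omega
  have hrange : Module.finrank ℂ (LinearMap.range (comb F g)) ≤ 9 := by
    have h1 := LinearMap.finrank_range_le (comb F g)
    rw [Module.finrank_prod, finrank_hom, finrank_hom] at h1
    have h3 : (2 + 2).choose 2 + (1 + 2).choose 2 = 9 := by decide
    omega
  have hle : (LinearMap.ker (ev Q)).map (homogeneousSubmodule (Fin 3) ℂ 5).subtype ≤
      LinearMap.range (comb F g) := by
    rintro _ ⟨h, hh, rfl⟩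
    have hz : ∀ i, i ≠ Fin.last 11 → eval (Q i) (h : S) = 0 := by
      intro i hi
      obtain ⟨j, rfl⟩ := Fin.exists_castSucc_eq.2 hi
      have h1 : ev Q h = 0 := hh
      rw [← ev_apply, h1]
      rfl
    have hh5 : (h : S).IsHomogeneous 5 := h.2
    have hall : ∀ i, eval (Q i) (h : S) = 0 := by
      intro i
      by_cases hi : i = Fin.last 11
      · rw [hi]
        exact hcon (h : S) hh5 hz
      · exact hz i hi
    obtain ⟨a, b, hab, ha, -, hb, -⟩ := hN F g Q hQ 5 (h : S) hh5 hall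
    refine ⟨(⟨a, ha⟩, ⟨b, hb⟩), ?_⟩
    rw [comb_apply]
    exact hab.symm
  have h1 := Submodule.finrank_mono hle
  have h2 : Module.finrank ℂ
      ((LinearMap.ker (ev Q)).map (homogeneousSubmodule (Fin 3) ℂ 5).subtype) =
      Module.finrank ℂ (LinearMap.ker (ev Q)) :=
    Submodule.finrank_map_subtype_eq _ _
  rw [h2] at h1
  exact absurd (le_trans hker (le_trans h1 hrange)) (by norm_num)

end Pool.Agent.H284.MX
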